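import Pool.Agent.LSG.StmtsC

/-!
# Squad LSG (MP_005a41_gt), row RNI

`Cp (X × ℝ)` and the power `ℕ → Cp (X × [0, 1])` are complemented in each other; by Pelczynski's
decomposition they are isomorphic.
-/

set_option autoImplicit false

open MeasureTheory Set Topology
open scoped BigOperators Pointwise

namespace Pool.Agent.LSG.H66

namespace RNI

/-- a power of a power -/
noncomputable def powE (M : Type) [AddCommGroup M] [Module ℝ M] [TopologicalSpace M] :
    (ℕ → M) ≃L[ℝ] (ℕ → ℕ → M) where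
  toFun f n m := f (Nat.pair n m)
  map_add' f g := rfl
  map_smul' c f := rfl
  invFun g k := g (Nat.unpair k).1 (Nat.unpair k).2
  left_inv f := by
    funext k
    change f (Nat.pair (Nat.unpair k).1 (Nat.unpair k).2) = f k
    rw [Nat.pair_unpair]
  right_inv g := by
    funext n m
    change g (Nat.unpair (Nat.pair n m)).1 (Nat.unpair (Nat.pair n m)).2 = g n m
    rw [Nat.unpair_pair]
  continuous_toFun := continuous_pi fun n => continuous_pi fun m => continuous_apply _
  continuous_invFun := continuous_pi fun k =>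
    (continuous_apply (Nat.unpair k).2).comp (continuous_apply (Nat.unpair k).1)

section gen

variable {Y Y' : Type} [TopologicalSpace Y] [TopologicalSpace Y']

lemma sum_cont (c : ℕ → Y → ℝ) (π : ℕ → Y → Y') (hc : ∀ n, Continuous (c n))
    (hπ : ∀ n, Continuous (π n)) (hl : LocallyFinite fun n => Function.support (c n))
    (F : ℕ → ↥(Cp Y')) :
    Continuous fun z => ∑ n ∈ (hl.point_finite z).toFinset, c n z * (F n).1 (π n z) := by
  have e : (fun z => ∑ n ∈ (hl.point_finite z).toFinset, c n z * (F n).1 (π n z))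
      = fun z => ∑ᶠ n, c n z * (F n).1 (π n z) := by
    funext z
    refine (finsum_eq_sum_of_support_subset _ fun n hn => ?_).symm
    rw [Finset.mem_coe, Set.Finite.mem_toFinset]
    exact left_ne_zero_of_mul hn
  rw [e]
  refine continuous_finsum (fun n => (hc n).mul ?_)
    (hl.subset fun n z hz => left_ne_zero_of_mul hz)
  exact Continuous.comp ((F n).2 : Continuous (F n).1) (hπ n)

/-- a locally finite combination of functions on `Y'`, as a function on `Y` -/
noncomputable def sumL (c : ℕ → Y → ℝ) (π : ℕ → Y → Y') (hc : ∀ n, Continuous (c n))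
    (hπ : ∀ n, Continuous (π n)) (hl : LocallyFinite fun n => Function.support (c n)) :
    (ℕ → ↥(Cp Y')) →L[ℝ] ↥(Cp Y) where
  toFun F := ⟨fun z => ∑ n ∈ (hl.point_finite z).toFinset, c n z * (F n).1 (π n z),
    sum_cont c π hc hπ hl F⟩
  map_add' F F' := by
    refine Subtype.ext (funext fun z => ?_)
    change ∑ n ∈ (hl.point_finite z).toFinset, c n z * ((F n).1 (π n z) + (F' n).1 (π n z))
      = ∑ n ∈ (hl.point_finite z).toFinset, c n z * (F n).1 (π n z)
        + ∑ n ∈ (hl.point_finite z).toFinset, c n z * (F' n).1 (π n z)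
    rw [← Finset.sum_add_distrib]
    exact Finset.sum_congr rfl fun n _ => mul_add _ _ _
  map_smul' a F := by
    refine Subtype.ext (funext fun z => ?_)
    change ∑ n ∈ (hl.point_finite z).toFinset, c n z * (a * (F n).1 (π n z))
      = a * ∑ n ∈ (hl.point_finite z).toFinset, c n z * (F n).1 (π n z)
    rw [Finset.mul_sum]
    exact Finset.sum_congr rfl fun n _ => mul_left_comm _ _ _
  cont := by
    refine Topology.IsInducing.subtypeVal.continuous_iff.2 (continuous_pi fun z => ?_)
    refine continuous_finsetSum _ fun n _ => continuous_const.mul ?_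
    exact (continuous_apply (π n z)).comp (continuous_subtype_val.comp (continuous_apply n))

lemma sumL_apply (c : ℕ → Y → ℝ) (π : ℕ → Y → Y') (hc : ∀ n, Continuous (c n))
    (hπ : ∀ n, Continuous (π n)) (hl : LocallyFinite fun n => Function.support (c n))
    (F : ℕ → ↥(Cp Y')) (z : Y) :
    (sumL c π hc hπ hl F).1 z = ∑ᶠ n, c n z * (F n).1 (π n z) := by
  refine (finsum_eq_sum_of_support_subset _ fun n hn => ?_).symm
  rw [Finset.mem_coe, Set.Finite.mem_toFinset]
  exact left_ne_zero_of_mul hn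

/-- composition with a sequence of maps -/
noncomputable def compL (σ : ℕ → Y' → Y) (hσ : ∀ n, Continuous (σ n)) :
    ↥(Cp Y) →L[ℝ] (ℕ → ↥(Cp Y')) where
  toFun f n := ⟨fun v => f.1 (σ n v), Continuous.comp (f.2 : Continuous f.1) (hσ n)⟩
  map_add' f f' := rfl
  map_smul' c f := rfl
  cont := by
    refine continuous_pi fun n => Topology.IsInducing.subtypeVal.continuous_iff.2
      (continuous_pi fun v => ?_)
    exact (continuous_apply (σ n v)).comp continuous_subtype_val

/-- a partition of unity with inverse branches -/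
lemma compl_in (c : ℕ → Y → ℝ) (π : ℕ → Y → Y') (hc : ∀ n, Continuous (c n))
    (hπ : ∀ n, Continuous (π n)) (hl : LocallyFinite fun n => Function.support (c n))
    (σ : ℕ → Y' → Y) (hσ : ∀ n, Continuous (σ n)) (h1 : ∀ n z, c n z ≠ 0 → σ n (π n z) = z)
    (h2 : ∀ z, ∑ᶠ n, c n z = 1) : Compl ↥(Cp Y) (ℕ → ↥(Cp Y')) := by
  refine ⟨compL σ hσ, sumL c π hc hπ hl, fun f => Subtype.ext (funext fun z => ?_)⟩
  refine (sumL_apply c π hc hπ hl (compL σ hσ f) z).trans ?_
  have e1 : ∀ n, c n z * (compL σ hσ f n).1 (π n z) = c n z * f.1 z := by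
    intro n
    by_cases h : c n z = 0
    · rw [h, zero_mul, zero_mul]
    · have e2 : (compL σ hσ f n).1 (π n z) = f.1 (σ n (π n z)) := rfl
      rw [e2, h1 n z h]
  rw [finsum_congr e1, ← finsum_mul, h2, one_mul]

/-- disjoint bumps -/
lemma compl_out (c : ℕ → Y → ℝ) (π : ℕ → Y → Y') (hc : ∀ n, Continuous (c n))
    (hπ : ∀ n, Continuous (π n)) (hl : LocallyFinite fun n => Function.support (c n))
    (σ : ℕ → Y' → Y) (hσ : ∀ n, Continuous (σ n)) (h1 : ∀ m v, c m (σ m v) = 1)
    (h2 : ∀ m v, π m (σ m v) = v) (h3 : ∀ m n v, n ≠ m → c n (σ m v) = 0) :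
    Compl (ℕ → ↥(Cp Y')) ↥(Cp Y) := by
  refine ⟨sumL c π hc hπ hl, compL σ hσ,
    fun F => funext fun m => Subtype.ext (funext fun v => ?_)⟩
  have e0 : (compL σ hσ (sumL c π hc hπ hl F) m).1 v = (sumL c π hc hπ hl F).1 (σ m v) := rfl
  rw [e0, sumL_apply, finsum_eq_single _ m fun n hn => by rw [h3 m n v hn, zero_mul], h1, h2,
    one_mul]

end gen

/-- clamp to the unit interval -/
noncomputable def cl (u : ℝ) : unitInterval := Set.projIcc 0 1 zero_le_one u

lemma cl_cont : Continuous cl := continuous_projIcc (h := zero_le_one)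

lemma cl_coe (u : ℝ) (h0 : 0 ≤ u) (h1 : u ≤ 1) : (cl u : ℝ) = u := by
  unfold cl
  rw [Set.projIcc_of_mem zero_le_one ⟨h0, h1⟩]

lemma cl_self (s : unitInterval) : cl (s : ℝ) = s := Subtype.ext (cl_coe _ s.2.1 s.2.2)

lemma cl_ge (u : ℝ) (h : 1 ≤ u) : (cl u : ℝ) = 1 := by
  unfold cl
  rw [Set.projIcc_of_right_le zero_le_one h]

lemma cl_le (u : ℝ) (h : u ≤ 0) : (cl u : ℝ) = 0 := by
  unfold cl
  rw [Set.projIcc_of_le_left zero_le_one h]

/-! ### `Cp (X × ℝ)` is complemented in the power -/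

/-- an enumeration of the integers -/
noncomputable def en : ℕ ≃ ℤ := Equiv.intEquivNat.symm

/-- the hat function -/
noncomputable def hat (u : ℝ) : ℝ := max 0 (1 - |u|)

lemma hat_cont : Continuous hat := continuous_const.max (continuous_const.sub continuous_abs)

lemma hat_ne (u : ℝ) (h : hat u ≠ 0) : |u| < 1 := by
  by_contra h1
  exact h (max_eq_left (by linarith [not_lt.1 h1]))

lemma hat_sum (t : ℝ) : ∑ᶠ n : ℕ, hat (t - en n) = 1 := by
  have e1 : ∑ᶠ n : ℕ, hat (t - en n) = ∑ᶠ m : ℤ, hat (t - m) :=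
    finsum_comp_equiv (f := fun m : ℤ => hat (t - m)) en
  have h0 := Int.floor_le t
  have h1 := Int.lt_floor_add_one t
  rw [e1, finsum_eq_sum_of_support_subset (s := {⌊t⌋, ⌊t⌋ + 1}) _ ?_]
  · rw [Finset.sum_pair (by omega)]
    unfold hat
    push_cast
    rw [abs_of_nonneg (by linarith : 0 ≤ t - (⌊t⌋ : ℝ)),
      abs_of_nonpos (by linarith : t - ((⌊t⌋ : ℝ) + 1) ≤ 0),
      max_eq_right (by linarith), max_eq_right (by linarith)]
    ring
  · intro m hm
    have h2 := abs_lt.1 (hat_ne _ hm)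
    have h3 : (m : ℝ) < ⌊t⌋ + 1 + 1 := by linarith [h2.1]
    have h4 : ((⌊t⌋ : ℝ)) - 1 < m := by linarith [h2.2]
    have h5 : m < ⌊t⌋ + 1 + 1 := by exact_mod_cast h3
    have h6 : ⌊t⌋ - 1 < m := by exact_mod_cast h4
    rw [Finset.coe_pair, Set.mem_insert_iff, Set.mem_singleton_iff]
    omega

lemma lf_int : LocallyFinite fun n : ℕ => {t : ℝ | |t - en n| < 1} := by
  intro t0
  refine ⟨Metric.ball t0 1, Metric.ball_mem_nhds t0 one_pos, ?_⟩
  have h1 : (en ⁻¹' (Set.Icc ⌊t0 - 2⌋ ⌈t0 + 2⌉)).Finite :=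
    (Set.finite_Icc _ _).preimage en.injective.injOn
  refine h1.subset ?_
  rintro n ⟨t, ht1, ht2⟩
  have h2 := abs_lt.1 (show |t - en n| < 1 from ht1)
  have h3 := abs_lt.1 (by simpa [Real.dist_eq] using ht2 : |t - t0| < 1)
  constructor
  · have h4 : t0 - 2 < (en n : ℝ) := by linarith [h2.2, h3.1]
    have h5 : ((⌊t0 - 2⌋ : ℤ) : ℝ) ≤ (en n : ℝ) := (Int.floor_le _).trans h4.le
    exact_mod_cast h5
  · have h4 : (en n : ℝ) < t0 + 2 := by linarith [h2.1, h3.2]
    have h5 : (en n : ℝ) ≤ ((⌈t0 + 2⌉ : ℤ) : ℝ) := h4.le.trans (Int.le_ceil _)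
    exact_mod_cast h5

lemma compl_a (X : Type) [TopologicalSpace X] :
    Compl ↥(Cp (X × ℝ)) (ℕ → ↥(Cp (X × unitInterval))) := by
  have hl : LocallyFinite fun n : ℕ =>
      Function.support fun z : X × ℝ => hat (z.2 - en n) :=
    (lf_int.preimage_continuous (continuous_snd : Continuous (Prod.snd : X × ℝ → ℝ))).subset
      fun n z hz => hat_ne _ hz
  refine compl_in (fun n z => hat (z.2 - en n)) (fun n z => (z.1, cl ((z.2 - en n + 1) / 2)))
    (fun n => hat_cont.comp (continuous_snd.sub continuous_const))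
    (fun n => continuous_fst.prodMk (cl_cont.comp
      (((continuous_snd.sub continuous_const).add continuous_const).div_const 2))) hl
    (fun n v => (v.1, (en n : ℝ) - 1 + 2 * (v.2 : ℝ)))
    (fun n => continuous_fst.prodMk (continuous_const.add
      (continuous_const.mul (continuous_subtype_val.comp continuous_snd))))
    (fun n z hz => ?_) (fun z => hat_sum z.2)
  have h1 := abs_lt.1 (hat_ne _ hz)
  have e2 : (en n : ℝ) - 1 + 2 * (cl ((z.2 - en n + 1) / 2) : ℝ) = z.2 := by
    rw [cl_coe _ (by linarith [h1.1]) (by linarith [h1.2])]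
    ring
  exact Prod.ext rfl e2

/-! ### The power is complemented in `Cp (X × ℝ)` -/

/-- a bump which is one on the unit interval -/
noncomputable def psi (u : ℝ) : ℝ := max 0 (1 - 2 * |u - cl u|)

lemma psi_cont : Continuous psi :=
  continuous_const.max (continuous_const.sub (continuous_const.mul
    (continuous_id.sub (continuous_subtype_val.comp cl_cont)).abs))

lemma psi_ne (u : ℝ) (h : psi u ≠ 0) : -1 < u ∧ u < 2 := by
  have h2 : |u - cl u| < 1 / 2 := by
    by_contra h1
    exact h (max_eq_left (by linarith [not_lt.1 h1]))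
  have h3 := abs_lt.1 h2
  have h4 := (cl u).2.1
  have h5 := (cl u).2.2
  constructor
  · linarith [h3.1]
  · linarith [h3.2]

lemma psi_one (s : unitInterval) : psi (s : ℝ) = 1 := by
  unfold psi
  rw [cl_self, sub_self, abs_zero, mul_zero, sub_zero, max_eq_right zero_le_one]

lemma lf_nat : LocallyFinite fun n : ℕ => {t : ℝ | psi (t - 3 * n) ≠ 0} := by
  intro t0
  refine ⟨Metric.ball t0 1, Metric.ball_mem_nhds t0 one_pos, ?_⟩
  refine (Set.finite_Iic ⌈t0 + 2⌉₊).subset ?_
  rintro n ⟨t, ht1, ht2⟩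
  have h2 := psi_ne _ (show psi (t - 3 * n) ≠ 0 from ht1)
  have h3 := abs_lt.1 (by simpa [Real.dist_eq] using ht2 : |t - t0| < 1)
  have h0 : (0 : ℝ) ≤ n := Nat.cast_nonneg n
  have h4 : (n : ℝ) ≤ t0 + 2 := by linarith [h2.1, h3.2]
  have h5 : (n : ℝ) ≤ ((⌈t0 + 2⌉₊ : ℕ) : ℝ) := h4.trans (Nat.le_ceil _)
  exact Set.mem_Iic.2 (by exact_mod_cast h5)

lemma compl_b (X : Type) [TopologicalSpace X] :
    Compl (ℕ → ↥(Cp (X × unitInterval))) ↥(Cp (X × ℝ)) := by
  have hl : LocallyFinite fun n : ℕ =>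
      Function.support fun z : X × ℝ => psi (z.2 - 3 * n) :=
    (lf_nat.preimage_continuous (continuous_snd : Continuous (Prod.snd : X × ℝ → ℝ))).subset
      fun n z hz => hz
  refine compl_out (fun n z => psi (z.2 - 3 * n)) (fun n z => (z.1, cl (z.2 - 3 * n)))
    (fun n => psi_cont.comp (continuous_snd.sub continuous_const))
    (fun n => continuous_fst.prodMk (cl_cont.comp (continuous_snd.sub continuous_const))) hl
    (fun n v => (v.1, 3 * (n : ℝ) + (v.2 : ℝ)))
    (fun n => continuous_fst.prodMk (continuous_const.add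
      (continuous_subtype_val.comp continuous_snd))) ?_ ?_ ?_
  · intro m v
    have e2 : 3 * (m : ℝ) + (v.2 : ℝ) - 3 * m = (v.2 : ℝ) := by ring
    exact (congrArg psi e2).trans (psi_one v.2)
  · intro m v
    have e2 : 3 * (m : ℝ) + (v.2 : ℝ) - 3 * m = (v.2 : ℝ) := by ring
    exact Prod.ext rfl ((congrArg cl e2).trans (cl_self v.2))
  · intro m n v hn
    have hs0 := v.2.2.1
    have hs1 := v.2.2.2
    change psi (3 * (m : ℝ) + (v.2 : ℝ) - 3 * n) = 0
    by_contra h
    have h1 := psi_ne _ h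
    rcases Nat.lt_or_gt_of_ne hn with h2 | h2
    · have h3 : (n : ℝ) + 1 ≤ m := by exact_mod_cast h2
      linarith [h1.2]
    · have h3 : (m : ℝ) + 1 ≤ n := by exact_mod_cast h2
      linarith [h1.1]

end RNI

/-- **RNI** -/
theorem rni (h1 : PelStmt) : RniStmt := fun X _ =>
  (h1 (ℕ → ↥(Cp (X × unitInterval))) ↥(Cp (X × ℝ)) ⟨RNI.powE ↥(Cp (X × unitInterval))⟩).1
    (RNI.compl_b X) (RNI.compl_a X)

end Pool.Agent.LSG.H66
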